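import Pool.Agent.N197.Pln.Defs
import Pool.Agent.N197.Pln.Main

/-!
# Bloch's problem for the characters of abelian covers of the projective plane

A normal abelian cover `X` of the plane with the group `G`, branched along the curves `f i = 0` of
degree `d i`, is given by elements `g i` of `G` (the generators of the inertia groups) with
`∑ i, d i • g i = 0`. A character `χ` of `G` of order dividing `n` gives the residues `a i = χ (g i)`
modulo `n` with `∑ i, d i • a i = 0`, and the cyclic quotient `X / ker χ` is the surface
`z ^ n = ∏ i, f i (x, y, 1) ^ a i`. By Pardini the `χ`-part of `H⁰ (X, ω_X)` is `H⁰ (P², O(l χ - 3))`, where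
`l χ = ∑ i, d i * (a i / n)` is the `lineDegree` below. So the `χ`-part and the `χ⁻¹`-part are zero if and only
if `l χ ≤ 2` and `l χ⁻¹ ≤ 2`.

Theorem: in this case the surface `z ^ n = ∏ i, f i (x, y, 1) ^ a i` is dominated by a product of two curves.
There is no condition on the other characters, on the number of the curves and on their singularities.

Proof. The total degree of the curves with `a i ≠ 0` is `l χ + l χ⁻¹ ≤ 4`. If two of them have a common
point `v`, or if the total degree is at most three, or if there is one quartic with a singular point `v`, then
the lines through `v` meet the branch curve in at most two further points, and these two points are moved to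
standard position over the function field of a curve. For one smooth quartic (`χ` has order two) one uses the
tangent lines of the quartic.
-/

namespace Pool.Agent.Results.MP_7ebcb6_ag.AbelianPlaneCovers

open Pool.Agent.N197.Pln

/-- a cyclic cover of the plane with `l χ ≤ 2` and `l χ⁻¹ ≤ 2` is dominated by a product of curves -/
theorem result {ι : Type} [Fintype ι] {f : ι → MvPolynomial (Fin 3) ℂ} {d : ι → ℕ}
    (hf : ∀ i, IsPlaneCurve (f i) (d i)) {n : ℕ} [NeZero n] {a : ι → ZMod n}
    (ha : ∑ i, d i • a i = 0) (h₁ : lineDegree n d a ≤ 2)
    (h₂ : lineDegree n d (fun i => -(a i)) ≤ 2) : DominatedByCurves n f a :=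
  dominated hf ha h₁ h₂

end Pool.Agent.Results.MP_7ebcb6_ag.AbelianPlaneCovers
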