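import Pool.Agent.N197.Pln.QDefs
import Pool.Agent.N197.Pln.QMain

/-!
# Bloch's problem for abelian covers of the product of two projective lines

A normal abelian cover `X` of `P¹ × P¹` with the group `G`, branched along curves of bidegrees
`(d i, e i)` with the equations `f i = 0`, is given by elements `g i` of `G` (the generators of the inertia
groups) with `∑ i, d i • g i = 0` and `∑ i, e i • g i = 0`. A character `χ` of `G` of order dividing `n` gives
the residues `a i = χ (g i)` modulo `n`, and the cyclic quotient `Y = X / ker χ` is the surface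
`z ^ n = ∏ i, f i (x, y) ^ a i`. By Pardini `H⁰ (Y, ω_Y)` is the sum of the `H⁰ (O(a k - 2, b k - 2))` over the
characters `k χ`, where `a k = ∑ i, d i * ((k a i) / n)` and `b k = ∑ i, e i * ((k a i) / n)`; so
`H² (Y, O_Y) = 0` means that `a k ≤ 1` or `b k ≤ 1` for all `k`.

Theorem: in this case the surface `z ^ n = ∏ i, f i (x, y) ^ a i` is dominated by a product of two curves.
There is no condition on the number, the components and the singularities of the curves.

Proof. Let `A` and `B` be the sums of the `d i` and of the `e i` over the `i` with `a i ≠ 0`, and suppose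
`A, B ≥ 4`. Since `a k + a (-k) = A` and `b k + b (-k) = B` for `k = 1`, we may assume `a 1 ≤ 1` and
`b (-1) ≤ 1`, so `a (-1) ≥ 3` and `b 1 ≥ 3`. Now `a` and `b` are subadditive. If `a k ≤ 1` and `b (-k) ≤ 1`, then
`b (k + 1) ≥ b 1 - b (-k) ≥ 2`, so `a (k + 1) ≤ 1`, and in the same way `b (-(k + 1)) ≤ 1`. By induction this
holds for all `k ≥ 1`, so `a (-1) ≤ 1`, a contradiction. So `A ≤ 3` or `B ≤ 3`, and the fibres of the surface
over one of the two lines are cyclic covers of `P¹` with at most three branch points, which can be moved to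
standard position.
-/

namespace Pool.Agent.Results.MP_7ebcb6_ag.AbelianQuadricCovers

open Pool.Agent.N197.Pln

/-- a cyclic cover of `P¹ × P¹` with `H² (Y, O_Y) = 0` is dominated by a product of curves -/
theorem result {ι : Type} [Fintype ι] {f : ι → MvPolynomial (Fin 2) ℂ} {d e : ι → ℕ}
    (hf : ∀ i, IsBidegreeCurve (f i) (d i) (e i)) {n : ℕ} [NeZero n] {a : ι → ZMod n}
    (hd : ∑ i, d i • a i = 0) (he : ∑ i, e i • a i = 0)
    (hpg : ∀ k : ℤ, lineDegree n d (fun i => k • a i) ≤ 1 ∨
      lineDegree n e (fun i => k • a i) ≤ 1) : AffineDominatedByCurves n f a := by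
  refine affine_dominated hf hd he (fun k => ?_) (fun k => ?_)
  · simpa only [natCast_zsmul] using hpg k
  · simpa only [neg_smul, natCast_zsmul] using hpg (-k)

end Pool.Agent.Results.MP_7ebcb6_ag.AbelianQuadricCovers
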