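import Pool.Agent.N164.RQ.Final3

/-!
# Families of relations between points meet all ample curves, or the group of zero-cycles is
# finite-dimensional

No hypothesis is assumed. Let `X` be an irreducible complex projective variety of dimension `d ≥ 2`,
for example a surface, and let `Z ⊆ X^m` be a closed subset of dimension at least `r` on which the
class of `∑ a i • [x i]` in `B(X) = CH_0(X)` is constant, for some integers `a i ≠ 0`, for example
`a i = ±1`.

**Theorem** (the case of a surface). At least one of the following is true.

1. `B(X)` is supported on a curve `C ⊆ X`: every zero-cycle on `X` is rationally equivalent to a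
   zero-cycle on `C` (a nonzero multiple of it if the `a i` are not all `±1`).
2. For all curves `C 1, ..., C m` in `X` cut out by hypersurfaces `F i = 0` of the projective space
   there is a point `(x 1, ..., x m)` of `Z` such that `x i ∈ C i` for at least `r` of the indices `i`.

If `X` has dimension `d` then there are `d - 1` hypersurfaces `F (i, j) = 0` for every index `i`, and
there is a point of `Z` such that `F (i, j) (x i) = 0` for at least `r` of the `m (d - 1)` pairs `(i, j)`.

For smooth surfaces `X` it is well known that (1) means that `B(X)` is finite-dimensional, `d(X) = 0`. So
let `B(X)` be infinite-dimensional.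

* Since there are only `m` indices, the dimension of `Z` is at most `m`. So all fibres of all maps
  `γ : S^n(X) → B(X)` have dimension at most `n`. Conversely, if `B(X)` is finite-dimensional then
  all fibres have dimension at least `2 n - c` for a constant `c` (this is well known). So the
  conjecture of Bloch (Q1) for a surface `X` says that some fibre of some `γ : S^n(X) → B(X)` has a
  dimension greater than `n`, or only that some relation between `m` points of `X` has dimension
  greater than `m`.
* All closed subsets of dimension `r` of all fibres of `γ : S^n(X) → B(X)` contain a cycle with `r`
  points on `C` (`x 1, ..., x r ∈ C`), for all ample curves `C`. In particular the class of a fibre of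
  dimension `n` is the class of an effective cycle on `C`. For K3 surfaces this is a theorem of Voisin.
  So Q1 for a surface `X` follows if there is only one closed `Z`, of some dimension `r`, in `X^m`
  with a constant class, such that no point of `Z` has `r` coordinates on a certain ample curve. This
  includes the first criterion, where `r > m`, and conversely there is such a `Z` if `B(X)` is
  finite-dimensional.

The theorem is proved for all groups `R` of zero-cycles which contain the group `Rat X` of the cycles
which are rationally equivalent to zero, for example

* `R = Rat X`;
* the group generated by `Rat X` and the zero-cycles on a curve `C₀ ⊆ X`: then the class of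
  `∑ a i • [x i]` need not be constant on `Z`, it may vary in the image of the Jacobian of `C₀`;
* the group of the zero-cycles `z` on `X` such that `Γ_* z` is rationally equivalent to zero on a
  variety `Y`, where `Γ` is a correspondence from `X` to `Y`.

Proof. Let `p` be a point of `Z` whose coordinates have the transcendence degree at least `r` over a
countable field `k` of definition of `X`, `Z` and the `F (i, j)`. Let `S` be a set of indices.
If the `p i`, `i ∉ S`, have a transcendence degree greater than `(d - 1) |Sᶜ|` over the field `k'`
generated by the `p i`, `i ∈ S`, then (1) is true, by an induction on `|Sᶜ|`: one chooses some `x = p i`,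
`i ∉ S`. Let `u` be the others. If `x` has transcendence degree `d` over `k'(u)` then
`{(y, u) | y ∈ X} ⊆ Z`, and so `a i • [y]` is constant on `X`. If not, then there is a field `k''`
generated by `k'` and some coordinates of `x` such that the locus `C` of `x` over `k''` is a curve or a
point, and the locus of `u` over `k''` has a dimension greater than `(d - 1) (|Sᶜ| - 1)`; every point of
this locus can be completed by a point of `C` to a point of `Z`, and the induction continues with
`B(X)` modulo the zero-cycles on `C`. So if (1) is not true then the transcendence degree of the `p i`,
`i ∈ S`, is at least `r - (d - 1) |Sᶜ|`, for all `S`. By a theorem on submodular functions there is a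
set `E` of `r` pairs `(i, j)` such that all parts `J` of `E` have at most as many members as the
transcendence degree of the `p i`, `(i, j) ∈ J`. If `F (i, j) (p i) ≠ 0` then the quotients
`F (i, j) (p i) / (p i)_l ^ D`, `l = 0, ..., N`, have the same transcendence degree as `p i`, since the
coefficients of `F (i, j)` are in `k`. By the theorem of Rado on independent transversals one can choose
an `l` for every pair in `E` such that all these quotients are algebraically independent. So they have
a specialization where all are zero, and this is extended to the point `p` by the completeness of the
projective space.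
-/

set_option autoImplicit false

namespace Pool.Agent.Results.MP_7ebcb6_ag.LargeRelations

open MvPolynomial Pool.Agent.N164.RP Pool.Agent.N164.RQ

theorem result {N d m r : ℕ} (hd : 2 ≤ d) (X : Set (Pt N)) (hX : IsVariety X d)
    (Z : Set (Fin m → Pt N)) (hZ : IsClosedSet Z) (hZX : ∀ p ∈ Z, ∀ i, p i ∈ X)
    (hdim : DimGE Z r) (a : Fin m → ℤ) (ha : ∀ i, a i ≠ 0)
    (R : AddSubgroup (Cycle N)) (_hR : Rat X ≤ R)
    (hrel : ∀ p ∈ Z, ∀ q ∈ Z, ∑ i, a i • pt (p i) - ∑ i, a i • pt (q i) ∈ R) :
    (∃ C ⊆ X, IsClosedSet (one C) ∧ ¬ DimGE (one C) 2 ∧
      ∃ n : ℕ, n ≠ 0 ∧ ((∀ i, a i = 1 ∨ a i = -1) → n = 1) ∧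
        ∀ z : Cycle N, IsOn z X → ∃ w : Cycle N, IsOn w C ∧ n • z - w ∈ R) ∨
    ∀ (F : Fin m × Fin (d - 1) → MvPolynomial (Fin (N + 1)) ℂ) (D : Fin m × Fin (d - 1) → ℕ),
      (∀ e, 0 < D e ∧ (F e).IsHomogeneous (D e)) →
        ∃ p ∈ Z, ∃ E : Finset (Fin m × Fin (d - 1)), E.card = r ∧ ∀ e ∈ E, ∀ v,
          IsCoord v (p e.1) → eval v (F e) = 0 :=
  main3 hd hX hZ hZX hdim a ha R fun p hp q hq => by
    have h := hrel p hp q hq
    rw [← Finset.sum_sub_distrib] at h
    simpa only [smul_sub] using h

end Pool.Agent.Results.MP_7ebcb6_ag.LargeRelations
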