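import Pool.Agent.N430.EQ.Main

/-!
# Finite-dimensionality of zero-cycles on varieties with automorphisms, one representation at a time

No hypothesis is assumed. Let `X` be an irreducible complex projective variety of dimension `d ≥ 2`, for
example a surface, and let `G` be a finite group of automorphisms of `X`. For a suitable projective
embedding `G` acts by linear maps of the homogeneous coordinates, and we take such an embedding. Then the
group ring `ℤ[G]` acts on the zero-cycles, and on the group `B(X) = CH_0(X)`.

**Theorem.** Suppose that for all irreducible representations `V` of `G` over `ℚ` there is one closed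
set `Z ⊆ X^m` of dimension greater than `m (d - 1)`, for some `m`, and elements `α 1, …, α m` of the
group ring, none of them zero on `V`, such that `α 1 [x 1] + … + α m [x m]` is constant in `B(X)` on `Z`.
Then `B(X)` is supported on a curve `C ⊆ X`, up to torsion: a fixed nonzero multiple of every
zero-cycle on `X` is rationally equivalent to a zero-cycle on `C`.

More precisely, if this is only known for some representations `V`, then `e B(X)` is supported on a
curve for all `e` in `ℤ[G]` which are zero on all the other irreducible representations. The theorem for
the whole of `B(X)` is the case `e = 1`.

For smooth surfaces `X` it is well known that the conclusion (for `e = 1`) means that `B(X)` is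
finite-dimensional, `d(X) = 0`, the question Q1. Conversely (well known) if `B(X)` is
finite-dimensional then there are such relations with `α i = 1`. So the conjecture of Bloch (Q1) for
`X` splits into one question for every irreducible representation of `G`: is there one large relation
whose coefficients are not zero on `V`? The trivial relations `x 1 = x 2, x 3 = x 4, …` have dimension
`m (d - 1)` for surfaces; one more decides. For the trivial group this is
`MP_7ebcb6_ag.LargeRelations`. Examples.

* `α i = ± ∑ g` over the elements of a subgroup `P`: a large relation between `P`-orbits, that is,
  between the points of `X / P`. It can be used for all `V` with a nonzero vector fixed by `P`. There are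
  such subgroups `P ≠ 1` for all `V` if, for example, `G` is abelian and not cyclic: so for such surfaces
  `X` the relations between the points of the quotients `X / P` decide.
* `G` of prime order `p`, `X / G` rational (then the trivial representation is done): one relation
  `∑ α i [x i]` with any nonzero `α i ∈ ℤ[ζ_p]` decides. If it is regarded as a relation between
  points, its dimension is much smaller than the number of points.

Proof. The theorem of `LargeRelations` is first proved for arbitrary maps `f 1, …, f m` from `X` to an
abelian group instead of multiples of the map `x ↦ [x]`: if `∑ f i (x i)` is constant on a closed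
`Z ⊆ X^m` of dimension greater than `m (d - 1)` then for some `i` all the values `f i x` are in the group
generated by the values of all the `f j` on a curve. The elements `α` of `ℤ[G]` such that `α B(X)` is
supported on a curve are a two-sided ideal `I`; here it is used that `G` maps curves to curves, and
rationally equivalent cycles to rationally equivalent cycles. If no multiple of `e` is in `I`, then,
as `ℚ[G]` is semisimple, there is an irreducible `V` on which `I` is zero and `e` is not. Now one of the
coefficients `α i` of the large relation for `V` is in `I`, a contradiction.
-/

set_option autoImplicit false

namespace Pool.Agent.Results.MP_7ebcb6_ag.OneRepresentationAtATime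

open Pool.Agent.N164.RP Pool.Agent.N430.EQ

theorem result {N d : ℕ} (hd : 2 ≤ d) (X : Set (Pt N)) (hX : IsVariety X d)
    {G : Type} [Group G] [Fintype G] (ρ : G →* Lin N) (hρ : ∀ g, ∀ x ∈ X, move (ρ g) x ∈ X)
    (Γ : AddSubgroup (Cycle N)) (hΓ : ∀ g, ∀ z ∈ Γ, Finsupp.mapDomain (move (ρ g)) z ∈ Γ)
    (e : G → ℤ)
    (h : ∀ (V : Type) [AddCommGroup V] [Module ℚ V] (σ : Representation ℚ G V),
      σ.IsIrreducible → NonzeroOn e σ → LargeRelation ρ X d (Rat X ⊔ Γ) σ) :
    ∃ C ⊆ X, IsClosedSet (one C) ∧ ¬ DimGE (one C) 2 ∧ ∃ n : ℕ, n ≠ 0 ∧
      ∀ z : Cycle N, IsOn z X → ∃ w : Cycle N, IsOn w C ∧ n • act ρ e z - w ∈ Rat X ⊔ Γ :=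
  main' (by omega) hX ρ hρ Γ hΓ e h

end Pool.Agent.Results.MP_7ebcb6_ag.OneRepresentationAtATime
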